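import Pool.Agent.Lib.helper1.NilC

namespace Pool.Agent.Results.MP_734462_al.AllFields

theorem result (F : Type) [Field F] (A : Type) [NonUnitalRing A] [Module F A]
    [IsScalarTower F A A] [SMulCommClass F A A]
    (hnil : ∀ a : A, ∃ n : ℕ, (fun x : A => a * x)^[n] a = 0)
    (hr : Module.rank F A ≤ Cardinal.aleph0) :
    ∃ (B : Type) (_ : NonUnitalRing B) (_ : Module F B) (_ : IsScalarTower F B B)
      (_ : SMulCommClass F B B), (∀ b : B, ∃ n : ℕ, (fun x : B => b * x)^[n] b = 0) ∧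
      Module.rank F B ≤ Cardinal.aleph0 ∧ ¬ ∃ f : A →ₙₐ[F] B, Function.Surjective f :=
  Pool.Agent.Lib.Helper1.Nil.nil_case hr hnil

end Pool.Agent.Results.MP_734462_al.AllFields
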